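import Pool.Agent.Helper87.WY.EXTD

/-!
# Project WY (MP_fc6b1e_nt): Y_EXT, existence of `TauX` for every local class
-/

set_option autoImplicit false
set_option linter.unusedSectionVars false

namespace Pool.Agent.Helper87.WY

open NumberField Polynomial Module IsDedekindDomain Pool.Agent.Helper51.SigLeo
open Pool.Agent.Helper51.RP Pool.Agent.Helper42.RD Pool.Agent.Helper42.PP
open Pool.Agent.Helper42.PP1 (SitW)
open Pool.Agent.Helper42.PB Pool.Agent.Helper42.PW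
open Pool.Agent.Helper94.PB
open Pool.Agent.Helper38.WY
open Pool.Agent.Helper87.PW (cl_conj nm_conj bel_lift nm_all_conj)
open Pool.Agent.Helper40.RS (bel gw bel_smul lies conj_of_bel free_gw absNorm_free val_smul efg)
open Pool.Agent.Helper40.RD (bel_of_above ordW valW)
open Pool.Agent.Helper64.PP (exists_close locSig_mul_pow)
open Pool.Agent.Helper8.LE (free_ord)

section main

variable {p : ℕ} [hp : Fact p.Prime] {K M K₁ M₁ J M₂ : Type} [Field K] [NumberField K] [Field M]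
  [NumberField M] [Field K₁] [NumberField K₁] [Field M₁] [NumberField M₁] [Field J]
  [NumberField J] [Field M₂] [NumberField M₂] [Algebra K M] [Algebra K K₁] [Algebra K M₁]
  [Algebra M M₁] [Algebra K₁ M₁] [Algebra K J] [Algebra K M₂] [Algebra M M₂] [Algebra K₁ M₂]
  [Algebra M₁ M₂] [Algebra J M₂] {ε : K₁} {δ : M ≃ₐ[K] M} {P : (ZMod p)[X]} {a₀ : M₂ˣ}

/-- Existence of `TauX` from a lower bound for the local conditions. -/
theorem extX (h1 : L_GVL) (h2 : W_THT) (h4 : N_GRP) (h5 : N_TRN) (hLC0 : Y_LC0) (hFRE : Y_FRE)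
    (hSIT : Y_SIT) (hSGB : Y_SGB) (hPWA : Y_PWA) (hUPB : Y_UPB) (hTOR : Y_TOR) (hABS : Y_ABS)
    (hB : SitB p K M K₁ M₁ J M₂ ε δ P a₀)
    (L : IwasawaLog p ℂ_[p]) (T : Set (K →+* ℂ_[p])) (B : Base p K M K₁ M₁ ε δ P) (a : K₁ˣ)
    (haO : OmType p K ε (a : K₁)) (n : ℕ)
    (hlob : ∀ (𝔪₀ : Ideal (𝓞 M)) (v : Mˣ → HeightOneSpectrum (𝓞 M) → ZMod p),
      LSys δ T (up M B.S) 𝔪₀ v → ∃ F : Finset Mˣ, F.card = p ^ (P.natDegree * n) ∧
      (∀ x ∈ F, LSat L (above T) (up M B.S) v (pol P δ x)) ∧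
      ∀ x ∈ F, ∀ y ∈ F, x ≠ y → ¬ LSat L (above T) (up M B.S) v (x / y)) :
    Nonempty (TauX n B a₀ T a) := by
  classical
  obtain ⟨_, _, _, _, _, hprim, hgen, -, hsord, hirr, hdvdP, hcopm, hc1, hc2, hnsp, -⟩ := hB.sit
  have := hB.t1
  have := hB.t2
  have := hB.t3
  have := hB.gM₂
  have hKM : IsScalarTower K M M₂ := by
    refine IsScalarTower.of_algebraMap_eq fun x => ?_
    rw [IsScalarTower.algebraMap_apply K M₁ M₂, IsScalarTower.algebraMap_apply K M M₁,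
      IsScalarTower.algebraMap_apply M M₁ M₂]
  have hp' : p.Prime := hp.out
  have hp0 : p ≠ 0 := hp'.ne_zero
  have hTRF : E_TRF := Pool.Agent.Helper40.RD.e_trf
  have hG1 : IsGalois M M₁ := IsGalois.tower_top_of_isGalois K M M₁
  have hG3 : IsGalois M₁ M₂ := IsGalois.tower_top_of_isGalois K M₁ M₂
  have hδm : δ ^ finrank K M = 1 := by rw [← hsord]; exact pow_orderOf_eq_one δ
  have hm0 : 0 < finrank K M := finrank_pos
  obtain ⟨hSf, hst, hSp, -, -, -, -⟩ := Pool.Agent.Helper16.PP.p_upr p K M B.S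
  have hSp' := hSp B.abp
  have hprim₂ : IsPrimitiveRoot (algebraMap K₁ M₂ ε) p :=
    hprim.map_of_injective (algebraMap K₁ M₂).injective
  set α : M₂ := (a₀ : M₂) * algebraMap K₁ M₂ (a : K₁) with hα
  have hα0 : α ≠ 0 := mul_ne_zero a₀.ne_zero ((_root_.map_ne_zero _).2 a.ne_zero)
  have hαO : OmType p K (algebraMap K₁ M₂ ε) α := om_alpha hB haO
  -- the uniformizers
  have hal : ∀ q : HeightOneSpectrum (𝓞 K), ∃ al : K,
      (∃ al : K, Good p α q al) → Good p α q al := by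
    intro q
    by_cases h : ∃ al : K, Good p α q al
    · obtain ⟨al, hal⟩ := h
      exact ⟨al, fun _ => hal⟩
    · exact ⟨0, fun h' => absurd h' h⟩
  choose alq halq using hal
  obtain ⟨R₁, hR₁def⟩ : ∃ R₁ : Set (HeightOneSpectrum (𝓞 M)), R₁ = {w | w ∈ up M B.S ∧
      FreeP K w ∧ ∃ al : K, Good p α (bel K w) al} := ⟨_, rfl⟩
  have hRm : ∀ w, w ∈ R₁ ↔ (w ∈ up M B.S ∧ FreeP K w ∧ ∃ al : K, Good p α (bel K w) al) := by
    intro w
    rw [hR₁def]
    exact Iff.rfl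
  obtain ⟨R₂, hR₂def⟩ : ∃ R₂ : Set (HeightOneSpectrum (𝓞 M)), R₂ = {w | w ∈ up M B.S ∧
      w.valuation M (p : M) < 1 ∧ FreeP K w ∧
      (¬ ∃ τ ∈ (above T : Set (M →+* ℂ_[p])), ∀ b : 𝓞 M, b ∈ w.asIdeal ↔ ‖τ (b : M)‖ < 1) ∧
      ∃ x : Mˣ, ¬ ∀ W : HeightOneSpectrum (𝓞 M₂), Above W w →
        NmAt p W α (algebraMap M M₂ (x : M))} := ⟨_, rfl⟩
  have hRn : ∀ w, w ∈ R₂ ↔ (w ∈ up M B.S ∧
      w.valuation M (p : M) < 1 ∧ FreeP K w ∧
      (¬ ∃ τ ∈ (above T : Set (M →+* ℂ_[p])), ∀ b : 𝓞 M, b ∈ w.asIdeal ↔ ‖τ (b : M)‖ < 1) ∧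
      ∃ x : Mˣ, ¬ ∀ W : HeightOneSpectrum (𝓞 M₂), Above W w →
        NmAt p W α (algebraMap M M₂ (x : M))) := by
    intro w
    rw [hR₂def]
    exact Iff.rfl
  have hWex : ∀ w : HeightOneSpectrum (𝓞 M), ∃ W : HeightOneSpectrum (𝓞 M₂), bel M W = w :=
    fun w => exists_bel (M₁ := M₂) w
  have hWp : ∀ W : HeightOneSpectrum (𝓞 M₂), (bel K W).valuation K (p : K) = 1 →
      W.valuation M₂ (p : M₂) = 1 := by
    intro W h
    rw [← natCast_notMem_iff, natCast_bel (K := K), natCast_notMem_iff]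
    exact h
  have hR : IsDat p R₁ (fun w => alq (bel K w)) := by
    refine ⟨hSf.subset fun w hw => ((hRm w).1 hw).1, fun w hw w' h => ?_,
      fun w hw => ((hRm w).1 hw).2.1, fun w hw => ?_, fun w hw => ?_, fun w hw => ?_,
      fun w hw w' h => ?_⟩
    · rw [hRm] at hw ⊢
      refine ⟨hst w hw.1 w' h, free_of_conj h hw.2.1, ?_⟩
      rw [bel_eq_of_conj h]
      exact hw.2.2
    · obtain ⟨-, -, al, hal, -, -⟩ := (hRm w).1 hw
      rw [← natCast_notMem_iff, natCast_bel (K := K), natCast_notMem_iff]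
      exact hal
    · obtain ⟨-, hwf, al, hal1, hal2, hal3⟩ := (hRm w).1 hw
      obtain ⟨W, hW⟩ := hWex w
      have hb : bel K W = bel K w := by rw [← bel_bel (M := M) W, hW]
      have hWp1 := hWp W (by rw [hb]; exact hal1)
      rw [absNorm_free (K := K) w hwf, ← hb]
      refine norm_good hB haO hWp1 (not_dvd_alpha hB a hWp1 (al := al) ?_ ?_).1
      · rw [hb, hal2]
        intro h
        have h2 := Int.eq_one_of_dvd_one (by positivity) h
        exact hp'.one_lt.ne' (by exact_mod_cast h2)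
      · exact hal3 W (by rw [← hb]; exact above_bel W)
    · obtain ⟨-, hwf, hex⟩ := (hRm w).1 hw
      rw [free_ord (K := K) w hwf]
      exact (halq _ hex).2.1
    · show alq (bel K w') = alq (bel K w)
      rw [bel_eq_of_conj h]
  have hdisj : ∀ w ∈ R₁, w ∉ R₂ := by
    intro w hw hw'
    have e1 := hR.copr w hw
    have e2 := ((hRn w).1 hw').2.1
    exact absurd e1 e2.ne
  -- conjugate primes
  have hcp : ∀ {w w₀ : HeightOneSpectrum (𝓞 M)} (g : M ≃ₐ[K] M),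
      (∀ y : M, w.valuation M (g y) = w₀.valuation M y) →
      w₀.valuation M (p : M) = w.valuation M (p : M) := by
    intro w w₀ g hg
    rw [← hg, map_natCast]
  have hR₂st : ∀ w ∈ R₂, ∀ w', ConjP K w' w → w' ∈ R₂ := by
    intro w hw w' hc
    have hc' := hc
    obtain ⟨g, hg⟩ := hc
    obtain ⟨f1, f2, f3, f4, x, hx⟩ := (hRn w).1 hw
    refine (hRn w').2 ⟨hst w f1 w' hc', by rw [← hcp g hg]; exact f2, free_of_conj hc' f3, ?_,
      Units.map ((g : M →+* M) : M →* M) x, fun hall => hx ?_⟩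
    · rintro ⟨τ, hτ, hτ'⟩
      refine f4 ⟨τ.comp (g : M →+* M), ?_, fun b => ?_⟩
      · show (τ.comp (g : M →+* M)).comp (algebraMap K M) ∈ T
        have e : (τ.comp (g : M →+* M)).comp (algebraMap K M) = τ.comp (algebraMap K M) := by
          ext y
          show τ (g (algebraMap K M y)) = τ (algebraMap K M y)
          rw [g.commutes]
        rw [e]
        exact hτ
      · have e1 := hτ' (g • b)
        rw [← w.valuation_lt_one_iff_mem (K := M), ← hg]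
        rw [← w'.valuation_lt_one_iff_mem (K := M)] at e1
        exact e1
    · intro W hW
      have e1 := nm_all_conj h4 h5 hprim₂ hα0 hαO g hg hall W hW
      have e2 : g.symm ((Units.map ((g : M →+* M) : M →* M) x : Mˣ) : M) = (x : M) :=
        g.symm_apply_apply (x : M)
      rwa [e2] at e1
  -- the functionals
  have hθ : ∀ w : HeightOneSpectrum (𝓞 M), ∃ θ : Mˣ → ZMod p,
      (w ∈ R₁ → (∀ x y, θ (x * y) = θ x + θ y) ∧ (∃ x, θ x ≠ 0) ∧
        ∀ x : Mˣ, θ x = 0 ↔ ∃ i : ℕ, LocPow p w ((x : M) * algebraMap K M (alq (bel K w)) ^ i)) ∧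
      (w ∈ R₂ → (∀ x y, θ (x * y) = θ x + θ y) ∧ (∃ x, θ x ≠ 0) ∧
        (∀ x : Mˣ, Cl p w (x : M) → θ x = 0) ∧
        ∀ x : Mˣ, (∀ W : HeightOneSpectrum (𝓞 M₂), Above W w →
          NmAt p W α (algebraMap M M₂ (x : M))) → θ x = 0) := by
    intro w
    by_cases hw : w ∈ R₁
    · have hne : algebraMap K M (alq (bel K w)) ≠ 0 := by
        intro h0
        have h6 := hR.unif w hw
        have h7 : ordv w (algebraMap K M (alq (bel K w))) = 1 := h6
        rw [h0] at h7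
        unfold ordv at h7
        simp at h7
      obtain ⟨θ, g1, g2, g3⟩ := Pool.Agent.Helper32.RDV.exists_tame p w _ hne (hR.unif w hw)
        (hR.norm w hw)
      refine ⟨θ, fun _ => ⟨g1, ?_, fun x => ?_⟩, fun h => absurd h (hdisj w hw)⟩
      · obtain ⟨x, hx⟩ := g3 1
        exact ⟨x, by rw [hx]; exact one_ne_zero⟩
      · rw [g2, Pool.Agent.Helper32.RDV.mem_GG_iff]
    · by_cases hw' : w ∈ R₂
      · obtain ⟨θ, hθ⟩ := h2 p M M₂ α hα0 w ((hRn w).1 hw').2.2.2.2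
        exact ⟨θ, fun h => absurd h hw, fun _ => hθ⟩
      · exact ⟨0, fun h => absurd h hw, fun h => absurd h hw'⟩
  choose θ hθ₁ hθ₂ using hθ
  have hθcl : ∀ w ∈ R₁ ∪ R₂, (∀ x y, θ w (x * y) = θ w x + θ w y) ∧ (∃ x, θ w x ≠ 0) ∧
      ∀ x : Mˣ, Cl p w (x : M) → θ w x = 0 := by
    rintro w (hw | hw)
    · obtain ⟨g1, g2, g3⟩ := hθ₁ w hw
      refine ⟨g1, g2, fun x hx => (g3 x).2 ⟨0, 1, ?_⟩⟩
      rw [pow_zero, mul_one, one_pow, mul_one]
      exact hx.1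
    · obtain ⟨g1, g2, g3, -⟩ := hθ₂ w hw
      exact ⟨g1, g2, g3⟩
  have hRS : R₁ ∪ R₂ ⊆ up M B.S := by
    rintro w (hw | hw)
    · exact ((hRm w).1 hw).1
    · exact ((hRn w).1 hw).1
  have hRst : ∀ w ∈ R₁ ∪ R₂, ∀ w', ConjP K w' w → w' ∈ R₁ ∪ R₂ := by
    rintro w (hw | hw) w' hc
    · exact Or.inl (hR.stable w hw w' hc)
    · exact Or.inr (hR₂st w hw w' hc)
  have hRf : ∀ w ∈ R₁ ∪ R₂, FreeP K w := by
    rintro w (hw | hw)
    · exact hR.free w hw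
    · exact ((hRn w).1 hw).2.2.1
  have hRT : ∀ w ∈ R₁ ∪ R₂, ∀ τ ∈ (above T : Set (M →+* ℂ_[p])),
      ¬ ∀ b : 𝓞 M, b ∈ w.asIdeal ↔ ‖τ (b : M)‖ < 1 := by
    rintro w (hw | hw) τ hτ hb
    · have e2 : ((p : ℕ) : 𝓞 M) ∈ w.asIdeal := (hb _).2 (Pool.Agent.Helper32.RDV.p_mem_PI τ)
      exact (natCast_notMem_iff w p).2 (hR.copr w hw) e2
    · exact ((hRn w).1 hw).2.2.2.1 ⟨τ, hτ, hb⟩
  obtain ⟨𝔪₀, v, hv, hvN, hvR⟩ := h1 p ℂ_[p] K M δ T (R₁ ∪ R₂) (up M B.S) θ hSf hst hSp' hRS hRst hRf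
    hRT hθcl
  obtain ⟨G, hG, hGp, hGδ⟩ := Pool.Agent.Helper90.RP.s_sub p ℂ_[p] L K M δ T (up M B.S) 𝔪₀ v hv
  obtain ⟨F, hFc, hF1, hF2⟩ := hlob 𝔪₀ v hv
  have hε₂ : algebraMap M₁ M₂ (algebraMap K₁ M₁ ε) = algebraMap K₁ M₂ ε :=
    (IsScalarTower.algebraMap_apply K₁ M₁ M₂ ε).symm
  have hSG : SitG p K M M₁ M₂ (algebraMap K₁ M₁ ε) δ P α :=
    hSIT p K M K₁ M₁ J M₂ ε δ P a₀ hB a haO
  -- the primes of the places of `T`
  obtain ⟨AT, hAT⟩ : ∃ AT : Set (HeightOneSpectrum (𝓞 M)), ∀ w, w ∈ AT ↔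
      ∃ τ ∈ (above T : Set (M →+* ℂ_[p])), ∀ b : 𝓞 M, b ∈ w.asIdeal ↔ ‖τ (b : M)‖ < 1 :=
    ⟨{w | ∃ τ ∈ (above T : Set (M →+* ℂ_[p])), ∀ b : 𝓞 M, b ∈ w.asIdeal ↔ ‖τ (b : M)‖ < 1},
      fun _ => Iff.rfl⟩
  have hATs : ∀ w ∈ AT, ∀ w', ConjP K w' w → w' ∈ AT := fun w hw w' hc =>
    (hAT w').2 (at_stable ((hAT w).1 hw) hc)
  have hATR : ∀ w ∈ AT, w ∉ R₁ ∪ R₂ := by
    intro w hw hwR
    obtain ⟨τ, hτ, hτ'⟩ := (hAT w).1 hw
    exact hRT w hwR τ hτ hτ'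
  -- the groups
  obtain ⟨V0, hV0, hV0p, hV0δ⟩ := v0_group hv AT hATs
  obtain ⟨Sx, hSxdef⟩ : ∃ Sx : Subgroup Mˣ,
      Sx = St hSGB hprim₂ hα0 (above T : Set (M₂ →+* ℂ_[p])) := ⟨_, rfl⟩
  have hSxm : ∀ x : Mˣ, x ∈ Sx ↔ ∀ τ ∈ (above T : Set (M₂ →+* ℂ_[p])),
      SigT p τ (algebraMap K₁ M₂ ε) α (algebraMap M M₂ (x : M)) := by
    intro x
    rw [hSxdef]
    exact mem_St
  have hPS : Pt (above T : Set (M →+* ℂ_[p])) ≤ Sx := by
    rw [hSxdef]
    exact Pt_le_St fun τ hτ => above_res hτ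
  have hPx : ∀ x ∈ Pt (above T : Set (M →+* ℂ_[p])), act δ x ∈
      Pt (above T : Set (M →+* ℂ_[p])) := fun x hx =>
    act_mem_Pt δ (fun τ hτ => comp_above δ hτ) hx
  have hSx : ∀ x ∈ Sx, act δ x ∈ Sx := by
    intro x hx
    rw [hSxdef] at hx ⊢
    exact act_mem_St hαO δ hx
  have hfx : V0 ⊓ Pt (above T : Set (M →+* ℂ_[p])) ≤ V0 ⊓ Sx := inf_le_inf_left V0 hPS
  have hfs : V0 ⊓ Pt (above T : Set (M →+* ℂ_[p])) ≤ G := by
    rintro x ⟨hx1, hx2⟩
    refine (hG x).2 ⟨fun w hw => ?_, locSig_of_pwT hPWA h4 L _ (up M B.S) hSf hSp' x hx2⟩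
    by_cases hwA : w ∈ AT
    · obtain ⟨τ, hτ, hτw⟩ := (hAT w).1 hwA
      rw [hvN w hw (hATR w hwA) x, ZMod.intCast_zmod_eq_zero_iff_dvd]
      exact dvd_ord_of_pwAt (((hPWA p).1 M w τ hτw (x : M) x.ne_zero).2 (hx2 τ hτ))
    · exact (hV0 x).1 hx1 w hw hwA
  have hfp : ∀ x : Mˣ, x ^ p ∈ V0 ⊓ Pt (above T : Set (M →+* ℂ_[p])) := fun x =>
    ⟨hV0p x, pow_mem_Pt _ x⟩
  obtain ⟨b, σ, hσT, hσi, hub⟩ := hUPB p K M M₁ M₂ (algebraMap K₁ M₁ ε) δ P α hSG T
  have htor : ∀ i : Fin b, ∃ ξ : Mˣ, Pw p (pol P δ ξ) ∧ (∀ w ∈ up M B.S, v ξ w = 0) ∧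
      LocSig L (above T : Set (M →+* ℂ_[p])) ξ ∧
      (∀ τ ∈ (above T : Set (M →+* ℂ_[p])), ¬ SamePl p (τ.comp (algebraMap K M)) (σ i) →
        PwT p τ (ξ : M)) ∧
      ∃ τ ∈ (above T : Set (M →+* ℂ_[p])), SamePl p (τ.comp (algebraMap K M)) (σ i) ∧
        ¬ PwT p τ (ξ : M) := fun i =>
    hTOR p K M M₁ M₂ (algebraMap K₁ M₁ ε) δ P α hSG L T (up M B.S) 𝔪₀ v hv (σ i) (hσT i).1
      (hσT i).2
  choose ξ hξ1 hξ2 hξ3 hξ4 hξ5 using htor
  have hind : ∀ U : Fin b → (ZMod p)[X],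
      ∏ i, pol (U i) δ (ξ i) ∈ V0 ⊓ Pt (above T : Set (M →+* ℂ_[p])) → ∀ i, P ∣ U i := by
    intro U hU i
    by_contra hn
    have hcop : IsCoprime P (U i) := hirr.coprime_iff_not_dvd.2 hn
    obtain ⟨A, hAm⟩ : ∃ A : Set (M →+* ℂ_[p]), ∀ τ, τ ∈ A ↔
        τ ∈ (above T : Set (M →+* ℂ_[p])) ∧ SamePl p (τ.comp (algebraMap K M)) (σ i) :=
      ⟨{τ | τ ∈ (above T : Set (M →+* ℂ_[p])) ∧ SamePl p (τ.comp (algebraMap K M)) (σ i)},
        fun _ => Iff.rfl⟩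
    have hA : ∀ τ ∈ A, τ.comp (δ : M →+* M) ∈ A := fun τ hτ =>
      (hAm _).2 ⟨comp_above δ ((hAm τ).1 hτ).1, by
        rw [comp_res]
        exact ((hAm τ).1 hτ).2⟩
    obtain ⟨g1, g2⟩ := pol_group (p := p) δ (Pt A) (pow_mem_Pt A)
      (fun x hx => act_mem_Pt δ hA hx)
    have h6 : ∀ j, j ≠ i → pol (U j) δ (ξ j) ∈ Pt A := by
      intro j hj
      refine g1 _ _ fun τ hτ => hξ4 j τ ((hAm τ).1 hτ).1 fun hs => hj ?_
      exact (hσi i j (samePl_trans (samePl_symm ((hAm τ).1 hτ).2) hs)).symm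
    have h7 : ∏ j, pol (U j) δ (ξ j) ∈ Pt A := fun τ hτ => hU.2 τ ((hAm τ).1 hτ).1
    rw [← Finset.mul_prod_erase _ _ (Finset.mem_univ i)] at h7
    have h8 : ∏ j ∈ Finset.univ.erase i, pol (U j) δ (ξ j) ∈ Pt A :=
      Subgroup.prod_mem _ fun j hj => h6 j (Finset.ne_of_mem_erase hj)
    have h9 : pol (U i) δ (ξ i) ∈ Pt A := (Subgroup.mul_mem_cancel_right _ h8).1 h7
    have h10 : pol P δ (ξ i) ∈ Pt A := by
      obtain ⟨y, hy⟩ := hξ1 i
      rw [hy]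
      exact pow_mem_Pt A y
    obtain ⟨τ, hτ, hs, hnp⟩ := hξ5 i
    exact hnp (g2 P (U i) (ξ i) hcop h10 h9 τ ((hAm τ).2 ⟨hτ, hs⟩))
  have hub' : ∀ F : Finset Mˣ, (∀ x ∈ F, x ∈ V0 ⊓ Sx ∧ Pw p (pol P δ x)) →
      (∀ x ∈ F, ∀ y ∈ F, x ≠ y → x / y ∉ V0 ⊓ Pt (above T : Set (M →+* ℂ_[p]))) →
      F.card ≤ p ^ (P.natDegree * b) := by
    intro F hF hF'
    refine hub F (fun x hx => ⟨(hF x hx).2, fun τ hτ => ?_⟩) fun x hx y hy hxy => ?_
    · rw [hε₂]
      exact (hSxm x).1 (hF x hx).1.2 τ hτ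
    · by_contra hcon
      push Not at hcon
      exact hF' x hx y hy hxy ⟨V0.div_mem (hF x hx).1.1 (hF y hy).1.1, hcon⟩
  obtain ⟨F', hFc', hF1', hF2'⟩ := hABS p K M (finrank K M) δ P hm0 hcopm hδm hirr hdvdP
    (V0 ⊓ Pt (above T : Set (M →+* ℂ_[p]))) G (V0 ⊓ Sx) hfp hfs hfx
    (fun x hx => ⟨hV0δ x hx.1, hPx x hx.2⟩) hGδ (fun x hx => ⟨hV0δ x hx.1, hSx x hx.2⟩) n b
    ⟨F, hFc, fun x hx => (hG _).2 (hF1 x hx),
      fun x hx y hy hxy hxG => hF2 x hx y hy hxy ((hG _).1 hxG)⟩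
    ⟨ξ, fun i => ⟨(hG _).2 ⟨hξ2 i, hξ3 i⟩, hξ1 i⟩, hind⟩ hub'
  obtain ⟨h, hhP, hhG, hhI⟩ := (Pool.Agent.Helper91.PP.p_sep p K M (finrank K M) δ P hm0 hcopm
    hδm hirr hdvdP (V0 ⊓ Sx) (by
      rintro x ⟨y, rfl⟩
      exact hfx (hfp y)) (fun x hx => ⟨hV0δ x hx.1, hSx x hx.2⟩)).2 n ⟨F', hFc', hF1', hF2'⟩
  obtain ⟨Gl, hGL, -, -, -, hGL5⟩ := Pool.Agent.Helper74.PP.p_lfi p K M (up M B.S) hSf hSp' hst
  have hvN' : ∀ w ∈ up M B.S, w ∉ R₁ → w ∉ R₂ → ∀ x : Mˣ, (p : ℤ) ∣ ordv w (x : M) →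
      v x w = 0 := by
    intro w hw e1 e2 x hx
    rw [hvN w hw (fun h => h.elim e1 e2) x, ZMod.intCast_zmod_eq_zero_iff_dvd]
    exact hx
  -- the primes which do not divide `p`
  have hcmp : ∀ w ∈ up M B.S, FreeP K w → (bel K w).valuation K (p : K) = 1 → ∀ x : Mˣ,
      (∀ W ∈ up M₂ B.S, bel K W = bel K w → LocAt p W α (algebraMap M M₂ (x : M))) →
      LocD p R₁ (fun w => alq (bel K w)) w (x : M) := by
    intro w hw hwf hvp x hloc
    obtain ⟨W, hW⟩ := hWex w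
    have hb : bel K W = bel K w := by rw [← bel_bel (M := M) W, hW]
    have hWS : ∀ W' : HeightOneSpectrum (𝓞 M₂), bel K W' = bel K w → W' ∈ up M₂ B.S := by
      intro W' hW'
      obtain ⟨q, hq, hab⟩ := hw
      refine ⟨q, hq, ?_⟩
      rw [← bel_of_above hab, ← hW']
      exact above_bel W'
    have hWp1 := hWp W (by rw [hb]; exact hvp)
    obtain ⟨x', hx'⟩ := exists_close (K := K) w hwf (x : M) x.ne_zero
    have hx'W : W.valuation M₂ (algebraMap K M₂ x' / algebraMap M M₂ (x : M) - 1) < 1 := by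
      have e : algebraMap K M₂ x' / algebraMap M M₂ (x : M) - 1 =
          algebraMap M M₂ (algebraMap K M x' / (x : M) - 1) := by
        rw [map_sub, map_div₀, map_one, ← IsScalarTower.algebraMap_apply K M M₂]
      rw [e, valW (M := M) W, hW]
      exact pow_lt_one₀ zero_le hx'
        (Pool.Agent.Helper79.PP.ram_ne (A := M) W |> fun h => by rw [hW] at h; exact h)
    have hxM₂ : algebraMap M M₂ (x : M) ≠ 0 := (_root_.map_ne_zero _).2 x.ne_zero
    have hlW : LocAt p W α (algebraMap K M₂ x') :=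
      locAt_close W hp0 hxM₂ hx'W (hloc W (hWS W hb) hb)
    have hlall : ∀ W' : HeightOneSpectrum (𝓞 M₂), Above W' (bel K w) →
        LocAt p W' α (algebraMap K M₂ x') := by
      intro W' hW'
      obtain ⟨g, hg⟩ := conj_of_bel' (K := K) (w := W') (v := W)
        ((bel_of_above hW').trans hb.symm)
      have h5 := locAt_conj hprim₂ hα0 hαO g hg hlW
      rwa [g.commutes] at h5
    have hx'0 : x' ≠ 0 := by
      rintro rfl
      rw [map_zero, zero_div, zero_sub, Valuation.map_neg, map_one] at hx'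
      exact lt_irrefl _ hx'
    have hordx : ordv (bel K w) x' = ordv w (x : M) := by
      rw [← free_ord (K := K) w hwf]
      exact ordv_eq_of_div w x.ne_zero hx'
    refine ⟨fun hwR => ?_, fun hwR => ?_⟩
    · by_contra hnd
      apply hwR
      rw [hRm]
      refine ⟨hw, hwf, good_of hα0 hvp (x := x') ?_ hlall⟩
      rw [hordx]
      exact hnd
    · obtain ⟨-, -, hex⟩ := (hRm w).1 hwR
      obtain ⟨-, hal1, hal2⟩ := halq _ hex
      have hnd1 : ¬ (p : ℤ) ∣ ordv (bel K W) (alq (bel K w)) := by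
        rw [hb, hal1]
        intro h
        have h2 := Int.eq_one_of_dvd_one (by positivity) h
        exact hp'.one_lt.ne' (by exact_mod_cast h2)
      obtain ⟨j, hj⟩ := one_dim hB a hWp1 hnd1
        (hal2 W (by rw [← hb]; exact above_bel W)) hx'0 hlW
      refine ⟨j, ?_⟩
      rw [hb] at hj
      have h6 := Pool.Agent.Helper17.RL.locPow_up p (M := K) (M₁ := M) (W := w)
        (w := bel K w) (above_bel w) _ hj
      have h7 : w.valuation M ((x : M) / algebraMap K M x' - 1) < 1 := by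
        have h8 := val_inv_sub w hx'
        rwa [inv_div] at h8
      have h9 := locPow_mul w (locPow_of_sub (p := p) w h7) h6
      have hx'M : algebraMap K M x' ≠ 0 := (_root_.map_ne_zero _).2 hx'0
      have e : (x : M) / algebraMap K M x' * algebraMap K M (x' * alq (bel K w) ^ j) =
          (x : M) * (algebraMap K M (alq (bel K w))) ^ j := by
        rw [map_mul, map_pow]
        field_simp
      rwa [e] at h9
  refine ⟨⟨⟨h, hhP, ?_, hhI⟩, ?_⟩⟩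
  · intro j x hx
    refine hhG _ x (hfx ⟨(hV0 x).2 fun w hw _ => ?_, fun τ hτ => ?_⟩)
    · by_cases hwR : w ∈ R₁ ∪ R₂
      · obtain ⟨w₀, hw₀, g, hg, hgv⟩ := hvR w hwR
        obtain ⟨y, hy⟩ := hx
        obtain ⟨g1, -, g3⟩ := hθcl w₀ hw₀
        have e1 : Cl p w (((x * y ^ p : Mˣ)) : M) := by
          rw [Units.val_mul, Units.val_pow_eq_pow_val]
          exact hy w hw
        have e2 : θ w₀ (act g⁻¹ (x * y ^ p)) = 0 := g3 _ (cl_conj g hg e1)
        rw [map_mul, map_pow, g1, Pool.Agent.Helper87.PW.hom_pow g1, add_zero] at e2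
        rw [hgv, e2]
      · exact hvN' w hw (fun h => hwR (Or.inl h)) (fun h => hwR (Or.inr h)) x
          (hGL5 x ((hGL x).2 hx) w hw).1
    · obtain ⟨y, hy⟩ := hx
      have h6 := (hy (wt p τ) (hSp' _ (wt_p p τ))).2
      rw [← map_pow] at h6
      have h7 := norm_small_of_val p τ h6
      rw [map_sub, map_one] at h7
      exact pwT_of_mul_pow y.ne_zero ((hPWA p).2.1 M τ _ h7)
  · intro j x hx hloc hsig
    refine hhG _ x ⟨(hV0 x).2 fun w hw hwA => ?_, (hSxm x).2 hsig⟩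
    obtain ⟨W, hW⟩ := hWex w
    have hb : bel K W = bel K w := by rw [← bel_bel (M := M) W, hW]
    have hWS : ∀ W' : HeightOneSpectrum (𝓞 M₂), bel K W' = bel K w → W' ∈ up M₂ B.S := by
      intro W' hW'
      obtain ⟨q, hq, hab⟩ := hw
      refine ⟨q, hq, ?_⟩
      rw [← bel_of_above hab, ← hW']
      exact above_bel W'
    by_cases hwf : FreeP K w
    swap
    · exact hvN' w hw (fun h => hwf ((hRm w).1 h).2.1) (fun h => hwf ((hRn w).1 h).2.2.1) x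
        (hnsp w hwf x hx)
    by_cases hvp : (bel K w).valuation K (p : K) = 1
    · -- `w` does not divide `p`
      have hWp2 : ∀ W' : HeightOneSpectrum (𝓞 M₂), bel K W' = bel K w →
          W'.valuation M₂ (p : M₂) = 1 := fun W' h => hWp W' (by rw [h]; exact hvp)
      have hw2 : w ∉ R₂ := by
        intro h
        have e1 := ((hRn w).1 h).2.1
        have e2 : w.valuation M (p : M) = 1 := by
          rw [← natCast_notMem_iff, natCast_bel (K := K), natCast_notMem_iff]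
          exact hvp
        exact absurd e2 e1.ne
      have hD := hcmp w hw hwf hvp x fun W' hW' hW'b => (hloc W' hW').1 (hWp2 W' hW'b)
      by_cases hw1 : w ∈ R₁
      · obtain ⟨w₀, hw₀, g, hg, hgv⟩ := hvR w (Or.inl hw1)
        have hc : ConjP K w₀ w := conj_symm ⟨g, hg⟩
        have hw₀1 : w₀ ∈ R₁ := hR.stable w hw1 w₀ hc
        obtain ⟨i, hi⟩ := hD.2 hw1
        rw [hgv, (hθ₁ w₀ hw₀1).2.2]
        refine ⟨i, (locPow_conj g hg _).1 ?_⟩
        have e1 : g (((act g⁻¹ x : Mˣ) : M) * algebraMap K M (alq (bel K w₀)) ^ i) =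
            (x : M) * algebraMap K M (alq (bel K w)) ^ i := by
          rw [map_mul, map_pow, g.commutes, bel_eq_of_conj hc]
          congr 1
          exact g.apply_symm_apply (x : M)
        rw [e1]
        exact hi
      · exact hvN' w hw hw1 hw2 x (hD.1 hw1)
    · -- `w` divides `p`
      have hvp' : (bel K w).valuation K (p : K) < 1 := by
        refine lt_of_le_of_ne ?_ hvp
        simpa using (bel K w).valuation_le_one (K := K) (p : 𝓞 K)
      have hwp : w.valuation M (p : M) < 1 := by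
        rw [← natCast_mem_iff, natCast_bel (K := K), natCast_mem_iff]
        exact hvp'
      have hWp' : ∀ W' : HeightOneSpectrum (𝓞 M₂), bel K W' = bel K w →
          W'.valuation M₂ (p : M₂) < 1 := by
        intro W' h
        rw [← natCast_mem_iff, natCast_bel (K := K), h, natCast_mem_iff]
        exact hvp'
      have hw1 : w ∉ R₁ := by
        intro hwR
        obtain ⟨-, -, al, hal, -, -⟩ := (hRm w).1 hwR
        exact absurd hal hvp
      by_cases hw2 : w ∈ R₂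
      · obtain ⟨w₀, hw₀, g, hg, hgv⟩ := hvR w (Or.inr hw2)
        have hc : ConjP K w₀ w := conj_symm ⟨g, hg⟩
        have hw₀2 : w₀ ∈ R₂ := hR₂st w hw2 w₀ hc
        rw [hgv]
        refine (hθ₂ w₀ hw₀2).2.2.2 _ fun W₀ hW₀ => ?_
        refine nm_all_conj h4 h5 hprim₂ hα0 hαO g hg (fun W' hW' => ?_) W₀ hW₀
        have hb' : bel K W' = bel K w := by rw [← bel_bel (M := M) W', bel_of_above hW']
        exact ((hloc W' (hWS W' hb')).2 (hWp' W' hb')).1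
      · refine hvN' w hw hw1 hw2 x ?_
        have hat : ¬ ∃ τ ∈ (above T : Set (M →+* ℂ_[p])), ∀ b : 𝓞 M, b ∈ w.asIdeal ↔
            ‖τ (b : M)‖ < 1 := fun h => hwA ((hAT w).2 h)
        have hall : ∀ x' : Mˣ, ∀ W' : HeightOneSpectrum (𝓞 M₂), Above W' w →
            NmAt p W' α (algebraMap M M₂ (x' : M)) := by
          intro x'
          by_contra hcon
          exact hw2 ((hRn w).2 ⟨hw, hwp, hwf, hat, x', hcon⟩)
        have hWW : Above W w := by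
          rw [← hW]
          exact above_bel W
        have hpw := pw_all hLC0 hSG W (hWp' W hb) fun x' => hall x' W hWW
        have h7 := ((hloc W (hWS W hb)).2 (hWp' W hb)).2 hpw
        rw [IsScalarTower.algebraMap_apply M M₁ M₂,
          free_ord (K := M₁) W (free_of_pw hFRE hSG W (hWp' W hb) hpw)] at h7
        have hab : Above (bel M₁ W) w := by
          rw [← hW]
          exact congrArg HeightOneSpectrum.asIdeal (bel_bel (K := M) (M := M₁) W)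
        exact ((hTRF p M M₁ hc1 _ w hab).1 _).1 h7

end main

/-- **Y_EXT.** -/
theorem y_ext (h1 : L_GVL) (h2 : W_THT) (h4 : N_GRP) (h5 : N_TRN) (hLC0 : Y_LC0) (hFRE : Y_FRE)
    (hSIT : Y_SIT) (hSGB : Y_SGB) (hPWA : Y_PWA) (hUPB : Y_UPB) (hTOR : Y_TOR) (hABS : Y_ABS) :
    Y_EXT := by
  intro p hp K M K₁ M₁ J M₂ _ _ _ _ _ _ _ _ _ _ _ _ _ _ _ _ _ _ _ _ _ _ _ ε δ P a₀
    hB L T B aτ haO n hlob
  exact extX h1 h2 h4 h5 hLC0 hFRE hSIT hSGB hPWA hUPB hTOR hABS hB L T B aτ haO n hlob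

end Pool.Agent.Helper87.WY
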