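import Pool.Agent.Helper87.PW.VEXTW
import Pool.Agent.Helper38.WY.Goals2

/-!
# Project WY (MP_fc6b1e_nt): Y_EXT, part A: the groups
-/

set_option autoImplicit false
set_option linter.unusedSectionVars false

namespace Pool.Agent.Helper87.WY

open NumberField Polynomial Module IsDedekindDomain Pool.Agent.Helper51.SigLeo
open Pool.Agent.Helper51.RP Pool.Agent.Helper42.RD Pool.Agent.Helper42.PP
open Pool.Agent.Helper42.PP1 (SitW)
open Pool.Agent.Helper42.PB Pool.Agent.Helper42.PW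
open Pool.Agent.Helper38.WY
open Pool.Agent.Helper91.PP (cls VG cls_mul cls_one cls_pow cls_prod cls_eq_zero cls_surj cls_pol
  ex_aux ex_mod)

section pwt

variable {p : ℕ} [hp : Fact p.Prime] {F : Type} [Field F]

theorem mem_cl (τ : F →+* ℂ_[p]) (t : ℂ_[p]) :
    t ∈ closure (Set.range τ) ↔ t ∈ τ.fieldRange.topologicalClosure := by
  rw [← RingHom.coe_fieldRange]
  exact Iff.rfl

theorem pwT_mul {τ : F →+* ℂ_[p]} {x y : F} (hx : PwT p τ x) (hy : PwT p τ y) :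
    PwT p τ (x * y) := by
  obtain ⟨t, ht, ht'⟩ := hx
  obtain ⟨s, hs, hs'⟩ := hy
  exact ⟨t * s, (mem_cl _ _).2 (mul_mem ((mem_cl _ _).1 ht) ((mem_cl _ _).1 hs)),
    by rw [mul_pow, ht', hs', map_mul]⟩

theorem pwT_inv {τ : F →+* ℂ_[p]} {x : F} (hx : PwT p τ x) : PwT p τ x⁻¹ := by
  obtain ⟨t, ht, ht'⟩ := hx
  exact ⟨t⁻¹, (mem_cl _ _).2 (inv_mem ((mem_cl _ _).1 ht)), by rw [inv_pow, ht', map_inv₀]⟩

theorem pwT_pow (τ : F →+* ℂ_[p]) (y : F) : PwT p τ (y ^ p) :=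
  ⟨τ y, subset_closure ⟨y, rfl⟩, by rw [map_pow]⟩

theorem pwT_one (τ : F →+* ℂ_[p]) : PwT p τ (1 : F) := by
  have h := pwT_pow τ (1 : F)
  rwa [one_pow] at h

theorem pwT_of_mul_pow {τ : F →+* ℂ_[p]} {x y : F} (hy : y ≠ 0) (h : PwT p τ (x * y ^ p)) :
    PwT p τ x := by
  have h2 := pwT_mul h (pwT_inv (pwT_pow τ y))
  rwa [mul_assoc, mul_inv_cancel₀ (pow_ne_zero _ hy), mul_one] at h2

/-- The group of the elements which are `p`-th powers for all the embeddings of a set. -/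
def Pt (A : Set (F →+* ℂ_[p])) : Subgroup Fˣ where
  carrier := {x | ∀ τ ∈ A, PwT p τ (x : F)}
  one_mem' := fun τ _ => by
    rw [Units.val_one]
    exact pwT_one τ
  mul_mem' := by
    intro x y hx hy τ hτ
    rw [Units.val_mul]
    exact pwT_mul (hx τ hτ) (hy τ hτ)
  inv_mem' := by
    intro x hx τ hτ
    rw [Units.val_inv_eq_inv_val]
    exact pwT_inv (hx τ hτ)

theorem mem_Pt {A : Set (F →+* ℂ_[p])} {x : Fˣ} : x ∈ Pt A ↔ ∀ τ ∈ A, PwT p τ (x : F) := Iff.rfl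

theorem pow_mem_Pt (A : Set (F →+* ℂ_[p])) (x : Fˣ) : x ^ p ∈ Pt A := fun τ _ => by
  rw [Units.val_pow_eq_pow_val]
  exact pwT_pow τ _

end pwt

section act

variable {p : ℕ} [hp : Fact p.Prime] {K M : Type} [Field K] [Field M] [Algebra K M]

theorem pwT_act {τ : M →+* ℂ_[p]} (δ : M ≃ₐ[K] M) {x : Mˣ}
    (h : PwT p (τ.comp (δ : M →+* M)) (x : M)) : PwT p τ ((act δ x : Mˣ) : M) := by
  obtain ⟨t, ht, ht'⟩ := h
  refine ⟨t, ?_, ht'⟩
  have e : Set.range (τ.comp (δ : M →+* M)) = Set.range τ := by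
    rw [RingHom.coe_comp]
    exact δ.surjective.range_comp τ
  rwa [e] at ht

theorem act_mem_Pt {A : Set (M →+* ℂ_[p])} (δ : M ≃ₐ[K] M)
    (hA : ∀ τ ∈ A, τ.comp (δ : M →+* M) ∈ A) {x : Mˣ} (hx : x ∈ Pt A) : act δ x ∈ Pt A :=
  fun τ hτ => pwT_act δ (hx _ (hA τ hτ))

theorem comp_above {T : Set (K →+* ℂ_[p])} (δ : M ≃ₐ[K] M) {τ : M →+* ℂ_[p]}
    (hτ : τ ∈ (above T : Set (M →+* ℂ_[p]))) :
    τ.comp (δ : M →+* M) ∈ (above T : Set (M →+* ℂ_[p])) := by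
  show (τ.comp (δ : M →+* M)).comp (algebraMap K M) ∈ T
  have e : (τ.comp (δ : M →+* M)).comp (algebraMap K M) = τ.comp (algebraMap K M) := by
    ext y
    show τ (δ (algebraMap K M y)) = τ (algebraMap K M y)
    rw [δ.commutes]
  rw [e]
  exact hτ

theorem comp_res (δ : M ≃ₐ[K] M) (τ : M →+* ℂ_[p]) :
    (τ.comp (δ : M →+* M)).comp (algebraMap K M) = τ.comp (algebraMap K M) := by
  ext y
  show τ (δ (algebraMap K M y)) = τ (algebraMap K M y)
  rw [δ.commutes]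

/-- Groups which are stable under `δ` and contain the `p`-th powers are stable under the polynomials
in `δ`, and coprime polynomials. -/
theorem pol_group (δ : M ≃ₐ[K] M) (G : Subgroup Mˣ) (hG : ∀ x : Mˣ, x ^ p ∈ G)
    (hs : ∀ x ∈ G, act δ x ∈ G) :
    (∀ (U : (ZMod p)[X]) (x : Mˣ), x ∈ G → pol U δ x ∈ G) ∧
    ∀ (P U : (ZMod p)[X]) (x : Mˣ), IsCoprime P U → pol P δ x ∈ G → pol U δ x ∈ G → x ∈ G := by
  have hp0 : ∀ v : VG G, p • v = 0 := by
    intro v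
    obtain ⟨x, rfl⟩ := cls_surj G v
    rw [← cls_pow, cls_eq_zero]
    exact hG x
  obtain ⟨_⟩ : Nonempty (Module (ZMod p) (VG G)) := ⟨AddCommGroup.zmodModule hp0⟩
  obtain ⟨T, hT⟩ := ex_aux (p := p) δ G hs
  have hpol : ∀ (c : (ZMod p)[X]) (x : Mˣ), cls G (pol c δ x) = aeval T c (cls G x) := by
    intro c x
    rw [cls_pol δ G T hT]
  refine ⟨fun U x hx => ?_, fun P U x hc h1 h2 => ?_⟩
  · rw [← cls_eq_zero] at hx ⊢
    rw [hpol, hx, map_zero]
  · rw [← cls_eq_zero, hpol] at h1 h2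
    obtain ⟨a, b, hab⟩ := hc
    have h3 : aeval T (a * P + b * U) (cls G x) = 0 := by
      rw [map_add, map_mul, map_mul, LinearMap.add_apply, Module.End.mul_apply,
        Module.End.mul_apply, h1, h2, map_zero, map_zero, add_zero]
    rw [hab, map_one] at h3
    exact (cls_eq_zero G x).1 h3

end act

section samepl

variable {p : ℕ} [hp : Fact p.Prime] {F : Type} [Field F]

theorem samePl_symm {σ σ' : F →+* ℂ_[p]} (h : SamePl p σ σ') : SamePl p σ' σ := fun x => (h x).symm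

theorem samePl_trans {σ σ' σ'' : F →+* ℂ_[p]} (h : SamePl p σ σ') (h' : SamePl p σ' σ'') :
    SamePl p σ σ'' := fun x => (h x).trans (h' x)

end samepl

end Pool.Agent.Helper87.WY
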