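import Pool.Agent.Helper87.WY.EXTA

/-!
# Project WY (MP_fc6b1e_nt): Y_EXT, part B: the groups of `SigT`, the decomposition groups
-/

set_option autoImplicit false
set_option linter.unusedSectionVars false

namespace Pool.Agent.Helper87.WY

open NumberField Polynomial Module IsDedekindDomain Pool.Agent.Helper51.SigLeo
open Pool.Agent.Helper51.RP Pool.Agent.Helper42.RD Pool.Agent.Helper42.PP
open Pool.Agent.Helper42.PP1 (SitW)
open Pool.Agent.Helper42.PB Pool.Agent.Helper42.PW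
open Pool.Agent.Helper38.WY

/-- Transport of `SigT` by an automorphism. -/
theorem sig_conj {p : ℕ} [hp : Fact p.Prime] (hSGB : Y_SGB) {K F : Type} [Field K] [Field F]
    [NumberField F] [Algebra K F] {ε α : F} (hε : IsPrimitiveRoot ε p) (hα0 : α ≠ 0)
    (hα : OmType p K ε α) (g : F ≃ₐ[K] F) (τ : F →+* ℂ_[p]) (x : F) :
    SigT p τ ε α (g x) ↔ SigT p (τ.comp (g : F →+* F)) ε α x := by
  have hpp := hp.out
  have hp0 : p ≠ 0 := hpp.ne_zero
  obtain ⟨n, C, hn, hC⟩ := hα g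
  have hcop : n.Coprime p := by
    rw [Nat.coprime_comm, hpp.coprime_iff_not_dvd]
    rintro ⟨m, rfl⟩
    rw [pow_mul, hε.pow_eq_one, one_pow] at hn
    have h1 : ε = 1 := by
      apply g.injective
      rw [hn, map_one]
    have h2 := hε
    rw [h1] at h2
    exact hpp.one_lt.ne' (h2.unique IsPrimitiveRoot.one)
  have hC0 : C ≠ 0 := by
    rintro rfl
    rw [zero_pow hp0, mul_zero] at hC
    exact hα0 ((map_eq_zero g).1 hC)
  have hαC : α ^ n * C ^ p ≠ 0 := mul_ne_zero (pow_ne_zero _ hα0) (pow_ne_zero _ hC0)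
  have h7 := (hSGB p F τ ε α hε hα0).2.2.2.2.2.2 (g : F ≃+* F) x
  have h5 := (hSGB p F τ ε (α ^ n * C ^ p) hε hαC).2.2.2.2.1 n hcop (g x)
  have h4 := (hSGB p F τ ε α hε hα0).2.2.2.1 n C hcop hC0 (g x)
  have e0 : (g : F ≃+* F) ε = ε ^ n := hn
  have e1 : (g : F ≃+* F) α = α ^ n * C ^ p := hC
  have e2 : (g : F ≃+* F) x = g x := rfl
  rw [e0, e1, e2] at h7
  exact (h5.trans h4).symm.trans h7

section groups

variable {p : ℕ} [hp : Fact p.Prime] {M M₂ : Type} [Field M] [Field M₂] [NumberField M₂]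
  [Algebra M M₂]

/-- The group of the elements of `M` with `SigT` for all the embeddings of a set. -/
def St (hSGB : Y_SGB) {ε α : M₂} (hε : IsPrimitiveRoot ε p) (hα0 : α ≠ 0)
    (A : Set (M₂ →+* ℂ_[p])) : Subgroup Mˣ where
  carrier := {x | ∀ τ ∈ A, SigT p τ ε α (algebraMap M M₂ (x : M))}
  one_mem' := fun τ _ => by
    rw [Units.val_one, map_one]
    exact (hSGB p M₂ τ ε α hε hα0).1 1 (pwT_one τ)
  mul_mem' := by
    intro x y hx hy τ hτ
    rw [Units.val_mul, map_mul]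
    exact (hSGB p M₂ τ ε α hε hα0).2.1 _ _ (hx τ hτ) (hy τ hτ)
  inv_mem' := by
    intro x hx τ hτ
    rw [Units.val_inv_eq_inv_val, map_inv₀]
    exact (hSGB p M₂ τ ε α hε hα0).2.2.1 _ ((_root_.map_ne_zero _).2 x.ne_zero) (hx τ hτ)

theorem mem_St {hSGB : Y_SGB} {ε α : M₂} {hε : IsPrimitiveRoot ε p} {hα0 : α ≠ 0}
    {A : Set (M₂ →+* ℂ_[p])} {x : Mˣ} :
    x ∈ St hSGB hε hα0 A ↔ ∀ τ ∈ A, SigT p τ ε α (algebraMap M M₂ (x : M)) := Iff.rfl

/-- `PwT` for the restriction of an embedding. -/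
theorem pwT_lift {τ : M₂ →+* ℂ_[p]} {x : M} (h : PwT p (τ.comp (algebraMap M M₂)) x) :
    PwT p τ (algebraMap M M₂ x) := by
  obtain ⟨t, ht, ht'⟩ := h
  refine ⟨t, closure_mono ?_ ht, ht'⟩
  rintro _ ⟨y, rfl⟩
  exact ⟨algebraMap M M₂ y, rfl⟩

theorem Pt_le_St {hSGB : Y_SGB} {ε α : M₂} {hε : IsPrimitiveRoot ε p} {hα0 : α ≠ 0}
    {A : Set (M₂ →+* ℂ_[p])} {A' : Set (M →+* ℂ_[p])}
    (hA : ∀ τ ∈ A, τ.comp (algebraMap M M₂) ∈ A') : Pt A' ≤ St hSGB hε hα0 A :=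
  fun _ hx τ hτ => (hSGB p M₂ τ ε α hε hα0).1 _ (pwT_lift (hx _ (hA τ hτ)))

theorem above_res {K : Type} [Field K] [Algebra K M] [Algebra K M₂] [IsScalarTower K M M₂]
    {T : Set (K →+* ℂ_[p])} {τ : M₂ →+* ℂ_[p]} (hτ : τ ∈ (above T : Set (M₂ →+* ℂ_[p]))) :
    τ.comp (algebraMap M M₂) ∈ (above T : Set (M →+* ℂ_[p])) := by
  show (τ.comp (algebraMap M M₂)).comp (algebraMap K M) ∈ T
  rw [RingHom.comp_assoc, ← IsScalarTower.algebraMap_eq]
  exact hτ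

theorem act_mem_St {K : Type} [Field K] [Algebra K M] [Algebra K M₂] [IsScalarTower K M M₂]
    [IsGalois K M] [IsGalois K M₂] {hSGB : Y_SGB} {ε α : M₂} {hε : IsPrimitiveRoot ε p}
    {hα0 : α ≠ 0} (hα : OmType p K ε α) (δ : M ≃ₐ[K] M) {T : Set (K →+* ℂ_[p])} {x : Mˣ}
    (hx : x ∈ St hSGB hε hα0 (above T : Set (M₂ →+* ℂ_[p]))) :
    act δ x ∈ St hSGB hε hα0 (above T : Set (M₂ →+* ℂ_[p])) := by
  intro τ hτ
  have e : algebraMap M M₂ ((act δ x : Mˣ) : M) = δ.liftNormal M₂ (algebraMap M M₂ (x : M)) :=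
    (AlgEquiv.liftNormal_commutes δ M₂ (x : M)).symm
  rw [e, sig_conj hSGB hε hα0 hα]
  exact hx _ (comp_above _ hτ)

end groups

section v0

variable {p : ℕ} [hp : Fact p.Prime] {K M : Type} [Field K] [Field M] [NumberField M]
  [Algebra K M]

/-- The group of the local conditions outside a set of primes. -/
theorem v0_group {δ : M ≃ₐ[K] M} {T : Set (K →+* ℂ_[p])} {S : Set (HeightOneSpectrum (𝓞 M))}
    {𝔪₀ : Ideal (𝓞 M)} {v : Mˣ → HeightOneSpectrum (𝓞 M) → ZMod p} (hv : LSys δ T S 𝔪₀ v)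
    (A : Set (HeightOneSpectrum (𝓞 M))) (hA : ∀ w ∈ A, ∀ w', ConjP K w' w → w' ∈ A) :
    ∃ G : Subgroup Mˣ, (∀ x, x ∈ G ↔ ∀ w ∈ S, w ∉ A → v x w = 0) ∧ (∀ x, x ^ p ∈ G) ∧
      ∀ x ∈ G, act δ x ∈ G := by
  have v_one : ∀ w ∈ S, v 1 w = 0 := by
    intro w hw
    have h := hv.add 1 1 w hw
    rw [one_mul] at h
    exact left_eq_add.1 h
  have v_inv : ∀ x, ∀ w ∈ S, v x⁻¹ w = - v x w := by
    intro x w hw
    have h := hv.add x x⁻¹ w hw
    rw [mul_inv_cancel, v_one w hw] at h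
    exact (neg_eq_of_add_eq_zero_right h.symm).symm
  have v_pow : ∀ x, ∀ w ∈ S, ∀ n : ℕ, v (x ^ n) w = n * v x w := by
    intro x w hw n
    induction n with
    | zero => rw [pow_zero, v_one w hw]; simp
    | succ n ih => rw [pow_succ, hv.add _ _ w hw, ih]; push_cast; ring
  refine ⟨{ carrier := {x | ∀ w ∈ S, w ∉ A → v x w = 0}
            one_mem' := fun w hw _ => v_one w hw
            mul_mem' := ?_
            inv_mem' := ?_ }, fun x ↦ Iff.rfl, ?_, ?_⟩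
  · intro x y hx hy w hw hwA
    rw [hv.add _ _ w hw, hx w hw hwA, hy w hw hwA, add_zero]
  · intro x hx w hw hwA
    rw [v_inv x w hw, hx w hw hwA, neg_zero]
  · intro x w hw hwA
    rw [v_pow x w hw p, CharP.cast_eq_zero, zero_mul]
  · intro x hx w hw hwA
    obtain ⟨w', hw', hval⟩ := Pool.Agent.Helper90.RP.exists_pull (K := K) δ w
    have e : v (act δ x) w = v x w' := hv.equiv x w hw w' hval
    rw [e]
    exact hx w' (hv.stable w hw w' hw') fun h => hwA (hA w' h w (conj_symm hw'))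

/-- The primes induced by embeddings above `T` are stable. -/
theorem at_stable {T : Set (K →+* ℂ_[p])} {w w' : HeightOneSpectrum (𝓞 M)}
    (h : ∃ τ ∈ (above T : Set (M →+* ℂ_[p])), ∀ b : 𝓞 M, b ∈ w.asIdeal ↔ ‖τ (b : M)‖ < 1)
    (hc : ConjP K w' w) :
    ∃ τ ∈ (above T : Set (M →+* ℂ_[p])), ∀ b : 𝓞 M, b ∈ w'.asIdeal ↔ ‖τ (b : M)‖ < 1 := by
  obtain ⟨τ, hτ, hτ'⟩ := h
  obtain ⟨g, hg⟩ := conj_symm hc
  refine ⟨τ.comp (g : M →+* M), comp_above g hτ, fun b => ?_⟩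
  have e1 := hτ' (g • b)
  rw [← w.valuation_lt_one_iff_mem (K := M)] at e1
  rw [← w'.valuation_lt_one_iff_mem (K := M), ← hg]
  exact e1

end v0

end Pool.Agent.Helper87.WY
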