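import Pool.Agent.Helper87.WY.EXTB
import Pool.Agent.Helper38.WY.Goals1

/-!
# Project WY (MP_fc6b1e_nt): Y_EXT, part C: the decomposition groups above `p`, local `p`-th powers
-/

set_option autoImplicit false
set_option linter.unusedSectionVars false

namespace Pool.Agent.Helper87.WY

open NumberField Polynomial Module IsDedekindDomain Pool.Agent.Helper51.SigLeo
open Pool.Agent.Helper51.RP Pool.Agent.Helper42.RD Pool.Agent.Helper42.PP
open Pool.Agent.Helper42.PP1 (SitW)
open Pool.Agent.Helper42.PB Pool.Agent.Helper42.PW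
open Pool.Agent.Helper38.WY
open Pool.Agent.Helper32.RDV

section decomp

variable {p : ℕ} [hp : Fact p.Prime] {K M M₁ M₂ : Type} [Field K] [NumberField K] [Field M]
  [NumberField M] [Field M₁] [NumberField M₁] [Field M₂] [NumberField M₂] [Algebra K M]
  [Algebra K M₁] [Algebra K M₂] [Algebra M M₁] [Algebra M M₂] [Algebra M₁ M₂] {ε : M₁}
  {δ : M ≃ₐ[K] M} {P : (ZMod p)[X]} {α : M₂}

/-- The decomposition groups in `Gal(M₂/M₁)` are cyclic. -/
theorem decomp (hS : SitG p K M M₁ M₂ ε δ P α) (W : HeightOneSpectrum (𝓞 M₂)) :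
    ∃ (σ : M₂ ≃ₐ[M₁] M₂) (t : ℕ), orderOf σ = p ^ t ∧
      (∀ y : M₂, W.valuation M₂ (σ y) = W.valuation M₂ y) ∧
      ∀ g : M₂ ≃ₐ[M₁] M₂, (∀ y : M₂, W.valuation M₂ (g y) = W.valuation M₂ y) →
        ∃ i : ℕ, g = σ ^ i := by
  have := hS.s2
  have := hS.gM₂
  have := hS.cyc₂
  have hG3 : IsGalois M₁ M₂ := IsGalois.tower_top_of_isGalois K M₁ M₂
  let D : Subgroup (M₂ ≃ₐ[M₁] M₂) :=
    { carrier := {g | ∀ y : M₂, W.valuation M₂ (g y) = W.valuation M₂ y}
      one_mem' := fun _ => rfl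
      mul_mem' := by
        intro a b ha hb y
        rw [AlgEquiv.mul_apply, ha, hb]
      inv_mem' := by
        intro a ha y
        have h := ha (a⁻¹ y)
        have e : a (a⁻¹ y) = y := by
          rw [← AlgEquiv.mul_apply, mul_inv_cancel, AlgEquiv.one_apply]
        rw [e] at h
        exact h.symm }
  have hDc : IsCyclic D := Subgroup.isCyclic D
  obtain ⟨σ, hσ⟩ := IsCyclic.exists_generator (α := D)
  obtain ⟨l, hl⟩ := hS.deg₂
  have hcard : Nat.card (M₂ ≃ₐ[M₁] M₂) = p ^ l := by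
    rw [IsGalois.card_aut_eq_finrank, hl]
  have hdvd : orderOf (σ : M₂ ≃ₐ[M₁] M₂) ∣ p ^ l := by
    rw [← hcard]
    exact orderOf_dvd_natCard _
  obtain ⟨t, -, ht⟩ := (Nat.dvd_prime_pow hp.out).1 hdvd
  refine ⟨σ, t, ht, σ.2, fun g hg => ?_⟩
  have h1 := hσ ⟨g, hg⟩
  rw [← mem_powers_iff_mem_zpowers] at h1
  obtain ⟨i, hi⟩ := h1
  refine ⟨i, ?_⟩
  have h2 := congrArg (Subtype.val : D → M₂ ≃ₐ[M₁] M₂) hi
  exact h2.symm

/-- The form of the action on `α` of an automorphism which is trivial on `ε`. -/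
theorem om_form {E : Type} [Field E] {K : Type} [Field K] [Algebra K E] {ε α : E}
    (hε : IsPrimitiveRoot ε p) (hα : OmType p K ε α) (g : E ≃ₐ[K] E) (hg : g ε = ε) :
    ∃ c : E, g α = α * c ^ p := by
  have hpp := hp.out
  obtain ⟨n, C, hn, hC⟩ := hα g
  rw [hg] at hn
  have h1 : ε ^ n = ε ^ 1 := by rw [← hn, pow_one]
  have h2 : n ≡ 1 [MOD p] := by
    have h3 := (IsOfFinOrder.pow_eq_pow_iff_modEq (hε.isOfFinOrder hpp.ne_zero)).1 h1
    rwa [← hε.eq_orderOf] at h3
  have hn1 : 1 ≤ n := by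
    by_contra h0
    have h0' : n = 0 := by omega
    rw [h0'] at h2
    have h3 : (0 : ℕ) % p = 1 % p := h2
    rw [Nat.zero_mod, Nat.mod_eq_of_lt hpp.one_lt] at h3
    exact absurd h3 (by norm_num)
  obtain ⟨l, hl⟩ : p ∣ n - 1 := (Nat.modEq_iff_dvd' hn1).1 h2.symm
  refine ⟨α ^ l * C, ?_⟩
  have e : n = 1 + p * l := by omega
  rw [hC, e, pow_add, pow_one, pow_mul, mul_pow, ← pow_mul, ← pow_mul, mul_comm p l, mul_assoc]

/-- If all the elements of `M` are local norms at `W ∣ p` then `α` is locally a `p`-th power. -/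
theorem pw_all (hLC0 : Y_LC0) (hS : SitG p K M M₁ M₂ ε δ P α) (W : HeightOneSpectrum (𝓞 M₂))
    (hW : W.valuation M₂ (p : M₂) < 1)
    (hall : ∀ x : Mˣ, NmAt p W α (algebraMap M M₂ (x : M))) : PwAt p W α := by
  have := hS.s1
  have := hS.s2
  have := hS.s3
  have := hS.s4
  have := hS.gM
  have := hS.gM₁
  have := hS.gM₂
  have hG : IsGalois M M₂ := IsGalois.tower_top_of_isGalois K M M₂
  have hprim₂ : IsPrimitiveRoot (algebraMap M₁ M₂ ε) p :=
    hS.prim.map_of_injective (algebraMap M₁ M₂).injective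
  obtain ⟨σ, t, ht, hσ, hgen⟩ := decomp hS W
  have hσo : orderOf (σ.restrictScalars M) = p ^ t := by
    rw [← ht]
    exact orderOf_injective (AlgEquiv.restrictScalarsHom M : (M₂ ≃ₐ[M₁] M₂) →* (M₂ ≃ₐ[M] M₂))
      (AlgEquiv.restrictScalars_injective M) σ
  have hD : ∀ g : M₂ ≃ₐ[M] M₂, (∀ y : M₂, W.valuation M₂ (g y) = W.valuation M₂ y) →
      g (algebraMap M₁ M₂ ε) = algebraMap M₁ M₂ ε → ∃ i : ℕ, g = σ.restrictScalars M ^ i := by
    intro g hg hgε
    have f2 : ∀ y : M₁, g (algebraMap M₁ M₂ y) = algebraMap M₁ M₂ y := by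
      have e1 : AlgEquiv.restrictNormal (g.restrictScalars K) M₁ = 1 := by
        apply hS.lin
        · intro x
          apply (algebraMap M₁ M₂).injective
          rw [AlgEquiv.restrictNormal_commutes, ← IsScalarTower.algebraMap_apply M M₁ M₂]
          exact g.commutes x
        · apply (algebraMap M₁ M₂).injective
          rw [AlgEquiv.restrictNormal_commutes]
          exact hgε
      intro y
      have e2 := AlgEquiv.restrictNormal_commutes (g.restrictScalars K) M₁ y
      rw [e1] at e2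
      exact e2.symm
    obtain ⟨i, hi⟩ := hgen (AlgEquiv.ofRingEquiv (f := (g : M₂ ≃+* M₂)) f2) hg
    refine ⟨i, ?_⟩
    apply AlgEquiv.ext
    intro x
    have h3 := congrArg (fun τ : M₂ ≃ₐ[M₁] M₂ => τ x) hi
    have h4 : (σ.restrictScalars M ^ i) x = (σ ^ i) x := by
      have h5 := map_pow (AlgEquiv.restrictScalarsHom M : (M₂ ≃ₐ[M₁] M₂) →* (M₂ ≃ₐ[M] M₂)) σ i
      exact (congrArg (fun τ : M₂ ≃ₐ[M] M₂ => τ x) h5).symm
    rw [h4]
    exact h3
  have hk : Nonempty (AlgebraicClosure ℚ →+* ℂ_[p]) := by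
    have : Algebra.IsAlgebraic ℚ (AlgebraicClosure ℚ) := AlgebraicClosure.isAlgebraic ℚ
    exact ⟨(IsAlgClosed.lift (R := ℚ) (S := AlgebraicClosure ℚ) (M := ℂ_[p])).toRingHom⟩
  by_contra hn
  obtain ⟨x, hx⟩ := hLC0 p ℂ_[p] hk M M₂ (algebraMap M₁ M₂ ε) α hprim₂ hS.ne W hW
    (fun g h => by
      have h1 := hS.comm (g.restrictScalars K) (h.restrictScalars K)
      apply AlgEquiv.ext
      intro x
      exact congrArg (fun τ : M₂ ≃ₐ[K] M₂ => τ x) h1)
    (fun g _ => hS.om (g.restrictScalars K)) (σ.restrictScalars M) t hσo (σ.commutes ε) hσ hD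
    (fun h0 c hc => by
      have h1 : σ ≠ 1 := by
        intro h
        rw [h, orderOf_one] at ht
        have h2 := (Nat.pow_eq_one.1 ht.symm)
        rcases h2 with h2 | h2
        · exact hp.out.one_lt.ne' h2
        · exact h0.ne' h2
      have h3 := hS.cyc σ h1 c hc
      rw [ht] at h3
      intro h4
      apply h3
      rw [← h4]
      refine Finset.prod_congr rfl fun i _ => ?_
      have h5 := map_pow (AlgEquiv.restrictScalarsHom M : (M₂ ≃ₐ[M₁] M₂) →* (M₂ ≃ₐ[M] M₂)) σ i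
      exact congrArg (fun τ : M₂ ≃ₐ[M] M₂ => τ c) h5) hn
  exact hx (hall x)

/-- If `α` is locally a `p`-th power at `W ∣ p` then the decomposition group in `Gal(M₂/M₁)` is trivial. -/
theorem free_of_pw (hFRE : Y_FRE) (hS : SitG p K M M₁ M₂ ε δ P α) (W : HeightOneSpectrum (𝓞 M₂))
    (hW : W.valuation M₂ (p : M₂) < 1) (hpw : PwAt p W α) : FreeP M₁ W := by
  have := hS.s1
  have := hS.s2
  have := hS.s3
  have := hS.s4
  have hprim₂ : IsPrimitiveRoot (algebraMap M₁ M₂ ε) p :=
    hS.prim.map_of_injective (algebraMap M₁ M₂).injective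
  obtain ⟨σ, t, ht, hσ, hgen⟩ := decomp hS W
  have h1 : σ = 1 := by
    by_contra h1
    have ht0 : 0 < t := by
      rcases Nat.eq_zero_or_pos t with h | h
      · rw [h, pow_zero, orderOf_eq_one_iff] at ht
        exact absurd ht h1
      · exact h
    obtain ⟨c, hc⟩ := om_form hprim₂ hS.om (σ.restrictScalars K) (σ.commutes ε)
    have h2 := hS.cyc σ h1 c hc
    apply h2
    rw [ht]
    have ho : orderOf (σ : M₂ ≃+* M₂) = p ^ t := by
      rw [← ht]
      rw [orderOf_eq_orderOf_iff]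
      intro n
      constructor
      · intro h
        apply AlgEquiv.ext
        intro x
        have h3 : ∀ n : ℕ, ∀ x : M₂, ((σ : M₂ ≃+* M₂) ^ n) x = (σ ^ n) x := by
          intro n
          induction n with
          | zero => intro x; rfl
          | succ n ih =>
            intro x
            rw [pow_succ', pow_succ', RingAut.mul_apply, AlgEquiv.mul_apply, ih]
            rfl
        rw [← h3, h]
        rfl
      · intro h
        apply RingEquiv.ext
        intro x
        have h3 : ∀ n : ℕ, ∀ x : M₂, ((σ : M₂ ≃+* M₂) ^ n) x = (σ ^ n) x := by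
          intro n
          induction n with
          | zero => intro x; rfl
          | succ n ih =>
            intro x
            rw [pow_succ', pow_succ', RingAut.mul_apply, AlgEquiv.mul_apply, ih]
            rfl
        rw [h3, h]
        rfl
    have h4 := hFRE p M₂ (algebraMap M₁ M₂ ε) α hprim₂ hS.ne W hW (σ : M₂ ≃+* M₂) t c hσ
      (σ.commutes ε) ho ht0 hc hpw
    rw [← h4]
    refine Finset.prod_congr rfl fun i _ => ?_
    have h3 : ∀ n : ℕ, ∀ x : M₂, ((σ : M₂ ≃+* M₂) ^ n) x = (σ ^ n) x := by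
      intro n
      induction n with
      | zero => intro x; rfl
      | succ n ih =>
        intro x
        rw [pow_succ', pow_succ', RingAut.mul_apply, AlgEquiv.mul_apply, ih]
        rfl
    rw [h3]
  intro g hg
  obtain ⟨i, hi⟩ := hgen g hg
  rw [hi, h1, one_pow]

end decomp

end Pool.Agent.Helper87.WY
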