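import Pool.Agent.Helper87.WY.EXTC

/-!
# Project WY (MP_fc6b1e_nt): Y_EXT, part D: weak approximation
-/

set_option autoImplicit false
set_option linter.unusedSectionVars false

namespace Pool.Agent.Helper87.WY

open NumberField Polynomial Module IsDedekindDomain Pool.Agent.Helper51.SigLeo
open Pool.Agent.Helper51.RP Pool.Agent.Helper42.RD Pool.Agent.Helper42.PP
open Pool.Agent.Helper42.PP1 (SitW)
open Pool.Agent.Helper42.PB Pool.Agent.Helper42.PW
open Pool.Agent.Helper38.WY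
open Pool.Agent.Helper32.RDV (weakApproxUnits val_one_of_close ordv_eq_zero)
open Pool.Agent.Helper64.PP (exists_close locSig_mul_pow)

section wap

variable {p : ℕ} [hp : Fact p.Prime] {M : Type} [Field M] [NumberField M]

theorem cl_val {w : HeightOneSpectrum (𝓞 M)} {u : M} (h : Cl p w u) : w.valuation M u = 1 :=
  val_one_of_close w h.1

theorem cl_pow (hGRP : N_GRP) {w : HeightOneSpectrum (𝓞 M)} {u : M} (h : Cl p w u) (n : ℕ) :
    Cl p w (u ^ n) := by
  induction n with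
  | zero =>
    rw [pow_zero]
    refine ⟨?_, ?_⟩
    · rw [sub_self, map_zero]
      exact zero_lt_one
    · rw [sub_self, map_zero]
      exact zero_le
  | succ n ih =>
    rw [pow_succ]
    exact (hGRP p M w).1 _ _ ih h

theorem exists_close_pow (hGRP : N_GRP) (S : Finset (HeightOneSpectrum (𝓞 M))) (x : Mˣ)
    (h : ∀ w ∈ S, PwAt p w (x : M)) : ∃ y : Mˣ, ∀ w ∈ S, Cl p w ((x : M) * (y : M) ^ p) := by
  classical
  have hp0 : p ≠ 0 := hp.out.ne_zero
  have h1 : ∀ w : HeightOneSpectrum (𝓞 M), ∃ y : Mˣ, w ∈ S → Cl p w ((x : M) * (y : M) ^ p) := by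
    intro w
    by_cases hw : w ∈ S
    · obtain ⟨y, hy⟩ := h w hw
      have hy0 : y ≠ 0 := by
        rintro rfl
        have h2 := cl_val hy
        rw [zero_pow hp0, mul_zero, map_zero] at h2
        exact zero_ne_one h2
      exact ⟨Units.mk0 y hy0, fun _ => hy⟩
    · exact ⟨1, fun h' => absurd h' hw⟩
  choose t ht using h1
  have hpv : ∀ w : HeightOneSpectrum (𝓞 M), w.valuation M (p : M) ≠ 0 := by
    intro w
    rw [Ne, map_eq_zero]
    exact Nat.cast_ne_zero.2 hp0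
  have htv : ∀ w : HeightOneSpectrum (𝓞 M), w.valuation M (t w : M) ≠ 0 := by
    intro w
    rw [Ne, map_eq_zero]
    exact (t w).ne_zero
  obtain ⟨y, hy⟩ := weakApproxUnits S t
    (fun w => w.valuation M (t w : M) * w.valuation M (p : M) ^ 3)
    (fun w => mul_ne_zero (htv w) (pow_ne_zero _ (hpv w)))
  refine ⟨y, fun w hw => ?_⟩
  obtain ⟨h2, h3⟩ := hy w hw
  have ht0 : (t w : M) ≠ 0 := (t w).ne_zero
  have e1 : (y : M) / t w - 1 = ((y : M) - t w) / t w := by
    field_simp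
  have hpos : 0 < w.valuation M (t w : M) := zero_lt_iff.2 (htv w)
  have hu : Cl p w ((y : M) / t w) := by
    refine ⟨?_, ?_⟩
    · rw [e1, map_div₀, div_lt_one₀ hpos]
      exact h3
    · rw [e1, map_div₀, div_le_iff₀ hpos, mul_comm]
      exact h2
  have e2 : (x : M) * (y : M) ^ p = ((x : M) * (t w : M) ^ p) * ((y : M) / t w) ^ p := by
    rw [div_pow]
    field_simp
  rw [e2]
  exact (hGRP p M w).1 _ _ (ht w hw) (cl_pow hGRP hu p)

theorem dvd_ord_of_pwAt {w : HeightOneSpectrum (𝓞 M)} {x : Mˣ} (h : PwAt p w (x : M)) :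
    (p : ℤ) ∣ ordv w (x : M) := by
  have hp0 : p ≠ 0 := hp.out.ne_zero
  obtain ⟨y, hy⟩ := h
  have h2 := cl_val hy
  have hy0 : y ≠ 0 := by
    rintro rfl
    rw [zero_pow hp0, mul_zero, map_zero] at h2
    exact zero_ne_one h2
  have h6 := ordv_eq_zero w h2
  rw [ordv_mul w x.ne_zero (pow_ne_zero _ hy0), ordv_pow] at h6
  exact ⟨-ordv w y, by linarith⟩

/-- Elements which are locally `p`-th powers satisfy the logarithmic condition. -/
theorem locSig_of_pwT (hPWA : Y_PWA) (hGRP : N_GRP) (L : IwasawaLog p ℂ_[p])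
    (A : Set (M →+* ℂ_[p])) (S : Set (HeightOneSpectrum (𝓞 M))) (hS : S.Finite)
    (hSp : ∀ w : HeightOneSpectrum (𝓞 M), w.valuation M (p : M) < 1 → w ∈ S) (x : Mˣ)
    (h : ∀ τ ∈ A, PwT p τ (x : M)) : LocSig L A x := by
  classical
  obtain ⟨y, hy⟩ := exists_close_pow hGRP
    (hS.toFinset.filter fun w => ∃ τ ∈ A, ∀ b : 𝓞 M, b ∈ w.asIdeal ↔ ‖τ (b : M)‖ < 1) x
    (fun w hw => by
      obtain ⟨τ, hτ, hτw⟩ := (Finset.mem_filter.1 hw).2
      exact ((hPWA p).1 M w τ hτw (x : M) x.ne_zero).2 (h τ hτ))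
  refine locSig_mul_pow L _ x y
    (Pool.Agent.Helper59.RP.s_bin p ℂ_[p] L M A (x * y ^ p) fun τ hτ => ?_)
  have h6 := (hy (wt p τ) (Finset.mem_filter.2 ⟨hS.mem_toFinset.2 (hSp _ (wt_p p τ)),
    τ, hτ, fun b => Iff.rfl⟩)).2
  rw [← map_pow] at h6
  have h7 := norm_small_of_val p τ h6
  rw [map_sub, map_one] at h7
  rw [Units.val_mul, Units.val_pow_eq_pow_val]
  exact h7

end wap

end Pool.Agent.Helper87.WY
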